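import Pool.Agent.H334R5.Ag.Conv

/-!
# NP and BPP: guessing a wrong threshold pattern better than at random

Let `x₁, …, xₘ` be polynomially many strings. For a random `k ∈ {0, …, m}` the probability that
exactly the first `k` of these strings belong to `A` is at most `1 / (m + 1)`. The theorem says that
an efficient algorithm can beat this bound for some `NP`-hard set `A`, by a factor `1 - 1/poly`, if
and only if `NP ⊆ BPP`.

Polynomial time is Mathlib's `Turing.TM2ComputableInPolyTime` (through `Pool.Agent.NPC.PolyTime`);
`InNP`, `NPHard` are the usual notions. The notions `InBPP`, `AntiGuesser` are in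
`Pool.Agent.H334R5.Ag.Defs`, and `Prob` is in `Pool.Agent.H334R5.Ag.Prob`.
-/

set_option autoImplicit false

namespace Pool.Agent.Results.MP_b6562f_lc.BetterThanChance

open Pool.Agent.NPC Pool.Agent.H334R5.Ag

/-- `NP ⊆ BPP` if and only if for some `NP`-hard set `A` some randomised polynomial-time algorithm
outputs, given `m` strings (where `m` is at least a polynomial in their length), a number `k` such
that the probability that exactly the first `k` strings are in `A` is at most
`(1 - 1 / (s + 1)) / (m + 1)` for a polynomial `s`. -/
theorem result :
    (∃ (A : Set (List Bool)) (q s ℓ : Polynomial ℕ) (R : List (List Bool) → List Bool → ℕ),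
      NPHard A ∧ AntiGuesser A q s ℓ R) ↔ ∀ L : Set (List Bool), InNP L → InBPP L :=
  antiGuess_iff

end Pool.Agent.Results.MP_b6562f_lc.BetterThanChance
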