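import Pool.Agent.H877R3.Join.GapStage

/-!
# Oracles which make `P` and `PSPACE` equal, while relative to their joins `BPP` and `NP` are
incomparable

Above every oracle `C` there are infinitely many oracles `A 0, A 1, A 2, ...`, each of which makes
`P` and `PSPACE` equal, such that relative to the join of any two of them `BPP` is not contained
in `NP` and `NP` is not contained in `BPP` (the latter even for algorithms with an arbitrary gap
between the probabilities of acceptance).
-/

namespace Pool.Agent.Results.MP_b6562f_lc.BppNpJoin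

open Pool.Agent.NPC Pool.Agent.H620R2.Gauge Pool.Agent.H877R3.Join

theorem result (C : Oracle) : ∃ A : ℕ → Oracle,
    (∀ i, Reduces {x | C x = true} {x | A i x = true} ∧
      (∀ L, IsPSPACE (A i) L → Reduces L {x | A i x = true}) ∧
      ∀ L, IsP (A i) L ↔ IsPSPACE (A i) L) ∧
    ∀ i j, i ≠ j →
      (∃ L, IsBPP (join (A i) (A j)) L ∧
        ¬ Pool.Agent.H620R2.Gauge.IsNP (join (A i) (A j)) L) ∧
      ∃ L, Pool.Agent.H620R2.Gauge.IsNP (join (A i) (A j)) L ∧
        ¬ IsGap (join (A i) (A j)) L := by
  obtain ⟨A, h1, h2⟩ := main3 C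
  refine ⟨A, h1, fun i j hij => ⟨?_, (h2 i j hij).2⟩⟩
  obtain ⟨L, h3, _, h4⟩ := (h2 i j hij).1
  exact ⟨L, h3, h4⟩

end Pool.Agent.Results.MP_b6562f_lc.BppNpJoin
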