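import Pool.Agent.H522R3.RC.Num
import Pool.Agent.H522R3.RC.UpNum
import Pool.Agent.H522R3.RC.AllNet

/-!
# Randomised networks for satisfiability with negation symmetries: how many coins have to move?

A network reads a `k`-CNF over the variables `X` (one input for each possible clause) and fair coins
(inputs indexed by `Y`); its other gates compute arbitrary functions of the multiset of their
incoming values, in any set `K`. A group `D` of negation patterns acts on the clause inputs and, by
`σ`, on the names of the coins, and extends to automorphisms of the network. (Without symmetry one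
gate suffices for any property of formulas, part 3.)

1. Let `0 < ε ≤ 1`, `(1280 / ε) ^ 2 ≤ k ≤ r`, let `D` have `2 ^ r` elements, and let at most
`(32 / 11) (1 - ε) r` of the coins be moved by `σ`. If for formulas with at most `2 ^ (k-1) (r+1)`
clauses the network decides satisfiability, or any other property between `an assignment makes an
odd number of literals of every clause true` and satisfiability, with two-sided error
`δ < 1/2 - 2 ^ (- (ε ^ 2 / 64) r)`, then it has at least `2 ^ ((ε ^ 2 / 64) r)` gates.

2. The constant `32 / 11` cannot be improved: with `(32 / 11 + ε) |X| + O(1)` coins every Boolean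
network for a property which does not change under negations can be turned into a randomised network
with one-sided error `1 / (|X| + 1)` that is symmetric under all `2 ^ |X|` negation patterns, at the
cost of a polynomial number (for constant `k`) of AND, OR and NAND gates.

The theorems are `lower_num`, `upper_num` and `exists_allNet` of the starting files
`Pool/Agent/H522R3/RC/`, which had not been handed in.
-/

set_option autoImplicit false

namespace Pool.Agent.Results.MP_b6562f_lc.CoinThreshold

open Pool.Agent.H30R2 Pool.Agent.H30R2.PS Pool.Agent.H30R2.NS H522R3.ND H522R3.RC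

theorem result :
    -- the lower bound
    (∀ (ε : ℝ), 0 < ε → ε ≤ 1 → ∀ (k r g : ℕ), (1280 / ε) ^ 2 ≤ (k : ℝ) → k ≤ r →
      (g : ℝ) ≤ 32 / 11 * (1 - ε) * r →
      ∀ (X Y K Gt : Type) [Fintype Gt] [Fintype Y] (D : AddSubgroup (X → ZMod 2)),
      Nat.card D = 2 ^ r → ∀ σ : D → Equiv.Perm Y, (∀ a b, σ (a + b) = σ a * σ b) →
      {y | ∃ a, σ a y ≠ y}.ncard ≤ g → ∀ (one zero : K) (N : PS.Net (Clause k X ⊕ Y) K Gt),
      (∀ a : D, SymAt N a.1 (σ a)) → ∀ (acc : K → Prop) (P : Set (Clause k X) → Prop),
      (∀ Φ, OddSat Φ → P Φ) → (∀ Φ, P Φ → Sat Φ) → ∀ δ : ℝ,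
      Decides N one zero acc P (2 ^ (k - 1) * (r + 1)) δ →
      δ < 1 / 2 - 2 ^ (-(ε ^ 2 / 64 * r)) →
      (2 : ℝ) ^ (ε ^ 2 / 64 * r) ≤ Fintype.card Gt) ∧
    -- symmetrisation with `32 / 11 + ε` coins for each variable
    (∀ ε : ℝ, 0 < ε → ε ≤ 1 →
      ∃ C : ℕ, ∀ (X : Type) [Fintype X] [DecidableEq X],
        ∃ (Y : Type) (_ : Fintype Y) (s : (X → ZMod 2) → Equiv.Perm Y),
          (∀ a a', s (a + a') = s a * s a') ∧
          (Fintype.card Y : ℝ) ≤ (32 / 11 + ε) * Fintype.card X + C ∧
          ∀ (k Mc : ℕ) (Gt : Type) [Fintype Gt] (N : Net (Clause k X) Bool Gt)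
            (P : Set (Clause k X) → Prop),
            (∀ t Φ, P (seen t Φ) ↔ P Φ) →
            (∀ Φ : Set (Clause k X), Φ.Finite → Φ.ncard ≤ Mc → (N.eval (ind Φ) = true ↔ P Φ)) →
            ∃ (Gt' : Type) (_ : Fintype Gt') (N' : Net (Clause k X ⊕ Y) Bool Gt'),
              (∀ a, SymAt N' a (s a)) ∧ OnlyNew N N' ∧
              Fintype.card Gt' ≤ Fintype.card Gt + (2 ^ k + 1) * (2 * Fintype.card X) ^ k +
                C * (Fintype.card X + 1) ^ C ∧
              ∀ Φ : Set (Clause k X), Φ.Finite → Φ.ncard ≤ Mc →
                (P Φ → 1 - 1 / (Fintype.card X + 1) ≤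
                  Pr fun y => N'.eval (data true false Φ y) = true) ∧
                (¬ P Φ → ∀ y, N'.eval (data true false Φ y) = false)) ∧
    -- without symmetry
    (∀ (k : ℕ) (X : Type) [Fintype X] [DecidableEq X] (f : Set (Clause k X) → Prop),
      ∃ N : Net (Clause k X) Bool (Option (Clause k X)), ∀ Φ, N.eval (ind Φ) = true ↔ f Φ) := by
  refine ⟨?_, ?_, ?_⟩
  · intro ε hε hε1 k r g hk hkr hg X Y K Gt _ _ D hD σ hσ hgσ one zero N hN acc P h1 h2 δ hdec hδ
    exact lower_num hε hε1 hk hkr hg D hD σ hσ hgσ one zero N hN acc P h1 h2 δ hdec hδ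
  · intro ε hε hε1
    exact upper_num hε hε1
  · intro k X _ _ f
    exact exists_allNet f

end Pool.Agent.Results.MP_b6562f_lc.CoinThreshold
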