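import Pool.Agent.H530R3.Am.Main

/-!
# `BPP`, `AM` and `NP` relative to sparse random oracles

Choose a random oracle `A`: each string `x` is put into `A` independently of the others with
probability `p |x|`. Let the density `p n` be about `2 ^ (- l n)`, where `n ^ ε ≤ l n ≤ n` and `l` is
computable in polynomial time. So `A` is sparse: for `l n = n` there is about one string of each
length in `A`. We prove, without any unproved hypothesis, that almost surely

* `AM^A = NP^A`;
* `BPP^A` is contained in `NP^A ∩ coNP^A`;
* `NP^A` is not contained in `BPP^A`, and `coNP^A` is not contained in `AM^A`.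

The first two parts are an unconditional derandomization: the only source of randomness is an oracle
which no deterministic algorithm seems to be able to use, since it does not find an element of it.
A nondeterministic algorithm can guess an element `y` of `A` of length `N` and use it as a random
string. The elements of `A` are not independent of the computations in question, which may ask the
oracle, and the algorithm may choose among the elements. But if `N` is larger than all the lengths of
the questions of the protocol on inputs of length `n`, then whether the string `y` belongs to `A` is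
independent of the set of the strings `y` which give a wrong answer, and this set is a
`(8/9) ^ (18 n)` fraction of all: `y` is cut into `36 n` independent samples, of which the majority
is taken (for `AM`, together with witnesses for all accepted samples). As the expected number of
elements of the right form and of length `N` is at most polynomial, almost surely all of them give
the right answer for all but finitely many inputs; and almost surely there are such elements for
polynomially bounded `N`.

In the general statement the density need not be a power of `2`: `2 ^ l n * p n` has to be bounded by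
a polynomial, and the sums of `2 ^ l N * p N` over the windows `n ≤ N < W n` must be so large that
`exp (- sum)` is summable; for `l n = n` the densities `p n = c / (n 2 ^ n)` are allowed, for
instance.
-/

namespace Pool.Agent.Results.MP_b6562f_lc.SparseOracle

open MeasureTheory Pool.Agent.NPC Pool.Agent.H628R3.RO
open Pool.Agent.H530R3.Thr (biasedOracle IsAM IsBPP)
open Pool.Agent.H530R3.Am

theorem result (l : ℕ → ℕ) (hl : Comp l) (hln : ∀ n, l n ≤ n) (G : Polynomial ℕ)
    (hG : ∀ n, n ≤ G.eval (l n)) :
    (∀ p : ℕ → unitInterval, (∀ n, (p n : ℝ) = (1 / 2) ^ l n) →
      ∀ᵐ A ∂(biasedOracle p), (∀ L : Set (List Bool), IsAM A L ↔ IsNP A L) ∧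
        (∀ L : Set (List Bool), IsBPP A L → IsNP A L ∧ IsNP A Lᶜ) ∧
        ∃ L : Set (List Bool), IsNP A L ∧ ¬ IsNP A Lᶜ ∧ ¬ IsAM A Lᶜ ∧ ¬ IsBPP A L) ∧
    (∀ (p : ℕ → unitInterval) (P W : Polynomial ℕ), (∀ n, 2 ^ l n * (p n : ℝ) ≤ P.eval n) →
      (Summable fun n : ℕ =>
        Real.exp (-∑ N ∈ Finset.Ico n (W.eval n), 2 ^ l N * (p N : ℝ))) →
      ∀ᵐ A ∂(biasedOracle p), (∀ L : Set (List Bool), IsAM A L ↔ IsNP A L) ∧
        (∀ L : Set (List Bool), IsBPP A L → IsNP A L ∧ IsNP A Lᶜ) ∧
        ∃ L : Set (List Bool), IsNP A L ∧ ¬ IsNP A Lᶜ ∧ ¬ IsAM A Lᶜ ∧ ¬ IsBPP A L) :=
  ⟨fun _ hp => main_pow hl hln G hG hp, fun _ P W hP hW => main hl hln G P W hG hP hW⟩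

end Pool.Agent.Results.MP_b6562f_lc.SparseOracle
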